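import Pool.Agent.N110.RK.Stm

/-!
# RK/A: semi-invariant forms of smaller degree
-/

set_option autoImplicit false

open Multiset Filter Topology

namespace Pool.Agent.N478.RK

open Pool.Agent.N110 Pool.Agent.N110.RK

/-- the translation of a form -/
noncomputable def tr {r : ℕ} (u : Lat r) : (Multiset (Lat r) → ℝ) →L[ℝ] (Multiset (Lat r) → ℝ) :=
  ContinuousLinearMap.pi fun s => ContinuousLinearMap.proj (s.map fun v => u + v)

section

variable {r : ℕ}

theorem tr_apply (u : Lat r) (L : Multiset (Lat r) → ℝ) (s : Multiset (Lat r)) :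
    tr u L s = L (s.map fun v => u + v) := rfl

theorem tr_tr (u u' : Lat r) (L : Multiset (Lat r) → ℝ) : tr u (tr u' L) = tr (u' + u) L := by
  funext s
  rw [tr_apply, tr_apply, tr_apply, Multiset.map_map]
  congr 1
  refine Multiset.map_congr rfl fun v _ => ?_
  simp only [Function.comp_apply]
  abel

theorem tr_comm (u u' : Lat r) (L : Multiset (Lat r) → ℝ) : tr u (tr u' L) = tr u' (tr u L) := by
  rw [tr_tr, tr_tr, add_comm]

theorem tr_zero (L : Multiset (Lat r) → ℝ) : tr 0 L = L := by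
  funext s
  rw [tr_apply]
  simp

/-- evaluation -/
noncomputable def Nk (r k : ℕ) : (Multiset (Lat r) → ℝ) →L[ℝ] ℝ :=
  ContinuousLinearMap.proj (replicate k 0)

theorem Nk_apply (k : ℕ) (L : Multiset (Lat r) → ℝ) : Nk r k L = L (replicate k 0) := rfl

theorem Nk_tr (k : ℕ) (u : Lat r) (L : Multiset (Lat r) → ℝ) :
    Nk r k (tr u L) = L (replicate k u) := by
  rw [Nk_apply, tr_apply, map_replicate, add_zero]

theorem mono_iter {ι : Type} [Fintype ι] (uu : ι → Lat r) (k : ℕ) (c : ℝ) (l : ℕ) :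
    ∀ y z : Multiset (Lat r) → ℝ, (∀ u, Nk r k (tr u y) ≤ c * Nk r k (tr u z)) →
      ∀ u, Nk r k (tr u ((∑ i, tr (uu i))^[l] y)) ≤ c * Nk r k (tr u ((∑ i, tr (uu i))^[l] z)) := by
  induction l with
  | zero => intro y z h u; exact h u
  | succ l ih =>
    intro y z h
    rw [Function.iterate_succ_apply, Function.iterate_succ_apply]
    refine ih _ _ fun u => ?_
    have e : ∀ x : Multiset (Lat r) → ℝ, Nk r k (tr u ((∑ i, ⇑(tr (uu i))) x)) =
        ∑ i, Nk r k (tr (uu i + u) x) := by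
      intro x
      rw [Finset.sum_apply, map_sum, map_sum]
      exact Finset.sum_congr rfl fun i _ => by rw [tr_tr]
    rw [e, e, Finset.mul_sum]
    exact Finset.sum_le_sum fun i _ => h _

theorem tr_iter {ι : Type} [Fintype ι] (uu : ι → Lat r) (v : Lat r) (l : ℕ) :
    ∀ x : Multiset (Lat r) → ℝ, tr v ((∑ i, tr (uu i))^[l] x) = (∑ i, tr (uu i))^[l] (tr v x) := by
  induction l with
  | zero => intro x; rfl
  | succ l ih =>
    intro x
    rw [Function.iterate_succ_apply, Function.iterate_succ_apply, ih]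
    congr 1
    rw [Finset.sum_apply, Finset.sum_apply, map_sum]
    exact Finset.sum_congr rfl fun i _ => tr_comm _ _ _

theorem sub_iter {ι : Type} [Fintype ι] (uu : ι → Lat r) (k : ℕ) (B : ℝ)
    (x : Multiset (Lat r) → ℝ)
    (h : ∀ u v, Nk r k (tr (u + v) x) ≤ B * (Nk r k (tr u x) * Nk r k (tr v x))) (l l' : ℕ) :
    Nk r k ((∑ i, tr (uu i))^[l + l'] x) ≤
      B * (Nk r k ((∑ i, tr (uu i))^[l] x) * Nk r k ((∑ i, tr (uu i))^[l'] x)) := by
  have h1 : ∀ v, Nk r k (tr v ((∑ i, tr (uu i))^[l'] x)) ≤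
      B * Nk r k ((∑ i, tr (uu i))^[l'] x) * Nk r k (tr v x) := by
    intro v
    have h2 := mono_iter uu k (B * Nk r k (tr v x)) l' (tr v x) x (fun u => by
      rw [tr_tr]
      have := h v u
      linarith) 0
    rw [tr_zero, tr_zero, ← tr_iter] at h2
    linarith
  have h3 := mono_iter uu k (B * Nk r k ((∑ i, tr (uu i))^[l'] x)) l
    ((∑ i, tr (uu i))^[l'] x) x h1 0
  rw [tr_zero, tr_zero, ← Function.iterate_add_apply] at h3
  linarith

theorem mix_add (θ θ' : Lat r →₀ ℝ) (J : Multiset (Lat r) → ℝ) :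
    mix (θ + θ') J = mix θ J + mix θ' J := by
  funext s
  show (θ + θ').sum (fun v c => c * J (v ::ₘ s)) =
    θ.sum (fun v c => c * J (v ::ₘ s)) + θ'.sum (fun v c => c * J (v ::ₘ s))
  exact Finsupp.sum_add_index' (fun _ => zero_mul _) fun _ _ _ => add_mul _ _ _

theorem mix_smul (c : ℝ) (θ : Lat r →₀ ℝ) (J : Multiset (Lat r) → ℝ) :
    mix (c • θ) J = c • mix θ J := by
  funext s
  show (c • θ).sum (fun v c => c * J (v ::ₘ s)) = c * θ.sum (fun v c => c * J (v ::ₘ s))
  rw [Finsupp.sum_smul_index (fun _ => zero_mul _), Finsupp.mul_sum]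
  refine Finsupp.sum_congr fun v _ => ?_
  ring

theorem cone_add {J x y : Multiset (Lat r) → ℝ} (hx : x ∈ cone J) (hy : y ∈ cone J) :
    x + y ∈ cone J := by
  refine map_mem_closure₂ continuous_add hx hy ?_
  rintro _ ⟨θ, hθ, rfl⟩ _ ⟨θ', hθ', rfl⟩
  exact ⟨θ + θ', fun v => add_nonneg (hθ v) (hθ' v), (mix_add θ θ' J).symm⟩

theorem cone_smul {J x : Multiset (Lat r) → ℝ} {c : ℝ} (hc : 0 ≤ c) (hx : x ∈ cone J) :
    c • x ∈ cone J := by
  refine map_mem_closure (continuous_const_smul c) hx ?_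
  rintro _ ⟨θ, hθ, rfl⟩
  exact ⟨c • θ, fun v => mul_nonneg hc (hθ v), (mix_smul c θ J).symm⟩

variable {C : Lat r → ℝ} {k : ℕ} {J : Multiset (Lat r) → ℝ} {ψ : Fin r → ℝ}

theorem tr_mix (h : Fm C (k + 1) J ψ) (u : Lat r) {θ : Lat r →₀ ℝ} (hθ : ∀ v, 0 ≤ θ v) :
    ∃ θ' : Lat r →₀ ℝ, (∀ v, 0 ≤ θ' v) ∧ tr u (mix θ J) = mix θ' J := by
  refine ⟨Real.exp (∑ i, ψ i * (u i : ℝ)) • θ.equivMapDomain (Equiv.subRight u), fun v => ?_, ?_⟩
  · exact mul_nonneg (Real.exp_pos _).le (hθ _)
  · rw [mix_smul]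
    funext s
    show θ.sum (fun v c => c * J (v ::ₘ s.map (fun v => u + v))) = Real.exp (∑ i, ψ i * (u i : ℝ)) *
      (θ.equivMapDomain (Equiv.subRight u)).sum (fun v c => c * J (v ::ₘ s))
    rw [Finsupp.sum_equivMapDomain, Finsupp.mul_sum]
    refine Finsupp.sum_congr fun v _ => ?_
    have h1 := h.inv u ((v - u) ::ₘ s)
    rw [map_cons, add_sub_cancel] at h1
    rw [h1]
    simp only [Equiv.subRight_apply]
    ring

theorem tr_cone (h : Fm C (k + 1) J ψ) (u : Lat r) {x : Multiset (Lat r) → ℝ} (hx : x ∈ cone J) :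
    tr u x ∈ cone J := by
  refine map_mem_closure (tr u).continuous hx ?_
  rintro _ ⟨θ, hθ, rfl⟩
  obtain ⟨θ', h1, h2⟩ := tr_mix h u hθ
  exact ⟨θ', h1, h2⟩

/-- RK/A -/
theorem leafA (hE : StmEig) : StmA := by
  intro r C hC k J ψ hJ
  obtain ⟨uu, huu⟩ : ∃ uu : Option (Fin r) → Lat r, ∀ i, uu (some i) = Pi.single i 1 :=
    ⟨fun o => o.elim 0 fun i => Pi.single i 1, fun i => rfl⟩
  have hx0 : ∀ s, mix (Finsupp.single (0 : Lat r) 1) J s = J (0 ::ₘ s) := fun s => by
    rw [mix_single, one_mul]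
  have hf : ∀ u, Nk r k (tr u (mix (Finsupp.single (0 : Lat r) 1) J)) =
      Real.exp (∑ i, ψ i * (u i : ℝ)) * dg (k + 1) J (-u) := by
    intro u
    rw [Nk_tr, hx0]
    have h1 := hJ.inv u ((-u) ::ₘ replicate k 0)
    rw [map_cons, map_replicate, add_zero, add_neg_cancel] at h1
    rw [h1]
    rfl
  obtain ⟨L, hL, hN, hT⟩ := hE (Multiset (Lat r) → ℝ) (Option (Fin r)) (cone J) (Nk r k)
    (fun i => tr (uu i)) (mix (Finsupp.single (0 : Lat r) 1) J) (4 ^ k)
    (fun x hx y hy => cone_add hx hy) (fun c hc x hx => cone_smul hc hx) (by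
      -- compactness
      have hcl : IsClosed {x | x ∈ cone J ∧ Nk r k x = 1} :=
        isClosed_closure.and (isClosed_eq (Nk r k).continuous continuous_const)
      refine (isCompact_univ_pi (s := fun s : Multiset (Lat r) =>
        Set.Icc (0 : ℝ) (if s.card = k then (s.map C).prod else 0)) fun _ =>
          isCompact_Icc).of_isClosed_subset hcl ?_
      rintro x ⟨hx, hx1⟩ s -
      obtain ⟨p1, p2, p3, -⟩ := cone_prop hJ hx
      refine ⟨p1 s, ?_⟩
      split_ifs with hs
      · have h1 := le_rep hC p3 s 0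
        rw [add_zero, add_zero, hs] at h1
        rw [Nk_apply] at hx1
        rw [hx1, mul_one] at h1
        exact h1
      · rw [p2 s hs])
    (fun i j x => tr_comm _ _ _) (fun i x hx => tr_cone hJ _ hx) (by
      intro i x hx hx1
      obtain ⟨p1, p2, p3, -⟩ := cone_prop hJ hx
      rw [Nk_tr]
      have h1 := rep_le hC p3 (replicate k (uu i)) 0
      rw [add_zero, add_zero, card_replicate] at h1
      rw [Nk_apply] at hx1
      rw [hx1] at h1
      refine lt_of_le_of_ne (p1 _) fun h2 => ?_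
      rw [← h2, mul_zero] at h1
      linarith)
    (subset_closure ⟨_, fun v => by
      classical
      rw [Finsupp.single_apply]
      split_ifs <;> norm_num, rfl⟩) (by
      rw [Nk_apply, hx0, ← replicate_succ]
      exact hJ.norm) (by
      intro l l'
      refine sub_iter uu k (4 ^ k) _ (fun u v => ?_) l l'
      rw [hf, hf, hf]
      have h1 := hJ.sub hC (-u) (-v)
      have e1 : -(u + v) = -u + -v := by abel
      have e2 : ∑ i, ψ i * ((u + v) i : ℝ) = ∑ i, ψ i * (u i : ℝ) + ∑ i, ψ i * (v i : ℝ) := by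
        rw [← Finset.sum_add_distrib]
        refine Finset.sum_congr rfl fun i _ => ?_
        rw [Pi.add_apply]
        push_cast
        ring
      rw [e1, e2, Real.exp_add]
      have h2 := Real.exp_pos (∑ i, ψ i * (u i : ℝ))
      have h3 := Real.exp_pos (∑ i, ψ i * (v i : ℝ))
      calc Real.exp (∑ i, ψ i * (u i : ℝ)) * Real.exp (∑ i, ψ i * (v i : ℝ)) *
            dg (k + 1) J (-u + -v) ≤ Real.exp (∑ i, ψ i * (u i : ℝ)) *
            Real.exp (∑ i, ψ i * (v i : ℝ)) * (4 ^ k * (dg (k + 1) J (-u) * dg (k + 1) J (-v))) :=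
            mul_le_mul_of_nonneg_left h1 (by positivity)
        _ = _ := by ring)
  refine ⟨L, hL, ?_⟩
  choose c hc0 hc using fun i : Fin r => hT (some i)
  obtain ⟨p1, p2, p3, p4⟩ := cone_prop hJ hL
  refine ⟨fun i => Real.log (c i), ?_⟩
  -- the character
  let χ : Lat r → ℝ := fun u => Real.exp (∑ i, Real.log (c i) * (u i : ℝ))
  have hχ : ∀ u, χ u = Real.exp (∑ i, Real.log (c i) * (u i : ℝ)) := fun _ => rfl
  have hχ0 : χ 0 = 1 := by
    rw [hχ]
    simp
  have hχa : ∀ u v, χ (u + v) = χ u * χ v := by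
    intro u v
    rw [hχ, hχ, hχ, ← Real.exp_add, ← Finset.sum_add_distrib]
    congr 1
    refine Finset.sum_congr rfl fun i _ => ?_
    rw [Pi.add_apply]
    push_cast
    ring
  have hχp : ∀ u, 0 < χ u := fun u => Real.exp_pos _
  let S : AddSubgroup (Lat r) :=
    { carrier := {u | tr u L = χ u • L}
      zero_mem' := by
        show tr 0 L = χ 0 • L
        rw [tr_zero, hχ0, one_smul]
      add_mem' := by
        intro u v hu hv
        have hu' : tr u L = χ u • L := hu
        have hv' : tr v L = χ v • L := hv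
        show tr (u + v) L = χ (u + v) • L
        rw [← tr_tr, hu', map_smul, hv', hχa, mul_smul]
      neg_mem' := by
        intro u hu
        have hu' : tr u L = χ u • L := hu
        show tr (-u) L = χ (-u) • L
        have h1 : χ u • tr (-u) L = L := by
          rw [← map_smul, ← hu', tr_tr, add_neg_cancel, tr_zero]
        have h2 : χ u * χ (-u) = 1 := by
          rw [← hχa, add_neg_cancel, hχ0]
        have h3 : χ (-u) = (χ u)⁻¹ := eq_inv_of_mul_eq_one_right h2
        rw [h3]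
        conv_rhs => rw [← h1]
        rw [smul_smul, inv_mul_cancel₀ (hχp u).ne', one_smul] }
  have hS : ∀ u, u ∈ S := by
    intro u
    have h1 : ∀ i : Fin r, (Pi.single i 1 : Lat r) ∈ S := by
      intro i
      show tr (Pi.single i 1) L = χ (Pi.single i 1) • L
      have h2 := hc i
      rw [huu i] at h2
      rw [h2]
      congr 1
      rw [hχ, Finset.sum_eq_single i]
      · rw [Pi.single_eq_same, Int.cast_one, mul_one, Real.exp_log (hc0 i)]
      · intro j _ hj
        rw [Pi.single_eq_of_ne hj, Int.cast_zero, mul_zero]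
      · intro h
        exact absurd (Finset.mem_univ i) h
    have h2 : u = ∑ i, u i • (Pi.single i 1 : Lat r) := by
      funext j
      rw [Finset.sum_apply, Finset.sum_eq_single j]
      · simp
      · intro i _ hi
        simp [hi.symm]
      · intro h
        exact absurd (Finset.mem_univ j) h
    rw [h2]
    exact S.sum_mem fun i _ => S.zsmul_mem (h1 i) _
  exact
    { nonneg := p1
      zero := p2
      norm := hN
      dom := p3
      ge := p4
      inv := fun u s => congrFun (show tr u L = χ u • L from hS u) s }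

end

end Pool.Agent.N478.RK

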